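import Pool.Agent.H12.QN.Stmts

set_option autoImplicit false

namespace Pool.QN

open Finset MeasureTheory

/-- the integral of a nonnegative 1-periodic function over an interval of length at most `N` -/
theorem chv_per {p : ℝ → ℝ} (hp : Continuous p) (h0 : ∀ y, 0 ≤ p y) (h1 : ∀ y, p (y + 1) = p y)
    (N : ℕ) (u v : ℝ) (huv : u ≤ v) (hv : v ≤ u + N) :
    ∫ y in u..v, p y ≤ N * ∫ y in (0:ℝ)..1, p y := by
  have hint : ∀ a b : ℝ, IntervalIntegrable p volume a b := fun a b => hp.intervalIntegrable a b
  have e1 : ∫ y in u..(u + N), p y = (∫ y in u..v, p y) + ∫ y in v..(u + N), p y :=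
    (intervalIntegral.integral_add_adjacent_intervals (hint _ _) (hint _ _)).symm
  have e2 : 0 ≤ ∫ y in v..(u + N), p y := intervalIntegral.integral_nonneg hv fun y _ => h0 y
  have hper : Function.Periodic p 1 := h1
  have e3 := hper.intervalIntegral_add_zsmul_eq (N : ℤ) u hint
  have e4 := hper.intervalIntegral_add_eq u 0
  rw [zero_add] at e4
  rw [e4] at e3
  simp only [natCast_zsmul, nsmul_eq_mul, mul_one] at e3
  linarith

/-- row CHV: change of variables along the curve -/
theorem chv_thm : CHVStmt := by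
  intro c B
  by_cases hc : 0 < c
  swap
  · exact ⟨1, one_pos, fun φ φ1 φ2 h => absurd h.cpos hc⟩
  obtain ⟨N, hN⟩ := exists_nat_ge (2 * |B| + 1)
  have hN0 : 0 < (N : ℝ) := by
    have := abs_nonneg B
    linarith
  refine ⟨N / c, by positivity, fun φ φ1 φ2 h p hp h0 h1 => ?_⟩
  have hc1 : ContinuousOn φ (Set.Icc (-1) 1) := fun x hx => (h.d1 x hx).continuousWithinAt
  have hc2 : ContinuousOn φ1 (Set.Icc (-1) 1) := fun x hx => (h.d2 x hx).continuousWithinAt
  have huI : Set.uIcc (-1:ℝ) 1 = Set.Icc (-1) 1 := Set.uIcc_of_le (by norm_num)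
  -- the integral over `mu`
  have em : ∫ x, p (φ x) ∂mu = ∫ x in (-1:ℝ)..1, p (φ x) := by
    rw [mu, intervalIntegral.integral_of_le (by norm_num), integral_Icc_eq_integral_Ioc]
  -- the substitution
  have esub : (∫ x in (-1:ℝ)..1, p (φ x) * φ1 x) = ∫ y in (φ (-1))..(φ 1), p y := by
    have := intervalIntegral.integral_comp_mul_deriv'' (a := -1) (b := 1) (f := φ) (f' := φ1) (g := p)
      (by rw [huI]; exact hc1) (fun x hx => by
        rw [min_eq_left (by norm_num), max_eq_right (by norm_num)] at hx
        exact ((h.d1 x ⟨hx.1.le, hx.2.le⟩).hasDerivAt (Icc_mem_nhds hx.1 hx.2)).hasDerivWithinAt)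
      (by rw [huI]; exact hc2) hp.continuousOn
    exact this
  -- the length of the image
  have hlen : |φ 1 - φ (-1)| ≤ 2 * |B| := by
    have := (convex_Icc (-1:ℝ) 1).norm_image_sub_le_of_norm_hasDerivWithin_le (f := φ) (f' := φ1)
      (C := |B|) (fun x hx => h.d1 x hx)
      (fun x hx => ((Real.norm_eq_abs _).le.trans (h.hi x hx)).trans (le_abs_self B))
      (x := -1) (y := 1) (by norm_num) (by norm_num)
    rw [Real.norm_eq_abs, Real.norm_eq_abs, show (1:ℝ) - -1 = 2 by norm_num,
      abs_of_pos (show (0:ℝ) < 2 by norm_num)] at this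
    linarith
  obtain ⟨hl1, hl2⟩ := abs_le.1 hlen
  have hint : IntervalIntegrable (fun x => p (φ x)) volume (-1) 1 := by
    refine ContinuousOn.intervalIntegrable ?_
    rw [huI]
    exact hp.comp_continuousOn hc1
  have hint1 : IntervalIntegrable (fun x => p (φ x) * φ1 x) volume (-1) 1 := by
    refine ContinuousOn.intervalIntegrable ?_
    rw [huI]
    exact (hp.comp_continuousOn hc1).mul hc2
  have hI0 : 0 ≤ ∫ y in (0:ℝ)..1, p y := intervalIntegral.integral_nonneg (by norm_num) fun y _ => h0 y
  -- the sign of the derivative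
  have hsgn : Set.EqOn φ1 (fun x => |φ1 x|) (Set.Icc (-1) 1) ∨
      Set.EqOn φ1 (-(fun x => |φ1 x|)) (Set.Icc (-1) 1) := by
    refine IsPreconnected.eq_or_eq_neg_of_sq_eq isPreconnected_Icc hc2 hc2.abs ?_ ?_
    · intro x _
      simp [sq_abs]
    · intro x hx
      have := h.lo x hx
      exact (hc.trans_le this).ne'
  rw [em]
  have key : c * ∫ x in (-1:ℝ)..1, p (φ x) ≤ N * ∫ y in (0:ℝ)..1, p y := by
    rw [← intervalIntegral.integral_const_mul]
    rcases hsgn with hs | hs
    · have k1 : ∫ x in (-1:ℝ)..1, c * p (φ x) ≤ ∫ x in (-1:ℝ)..1, p (φ x) * φ1 x := by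
        refine intervalIntegral.integral_mono_on (by norm_num) (hint.const_mul c) hint1 fun x hx => ?_
        have e1 : φ1 x = |φ1 x| := hs hx
        have e2 := h.lo x hx
        rw [← e1] at e2
        have e3 := h0 (φ x)
        nlinarith
      refine k1.trans ?_
      rw [esub]
      by_cases hle : φ (-1) ≤ φ 1
      · exact chv_per hp h0 h1 N _ _ hle (by linarith)
      · push Not at hle
        have k2 : 0 ≤ ∫ y in (φ 1)..(φ (-1)), p y :=
          intervalIntegral.integral_nonneg hle.le fun y _ => h0 y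
        rw [intervalIntegral.integral_symm]
        have k3 : 0 ≤ N * ∫ y in (0:ℝ)..1, p y := by positivity
        linarith
    · have k1 : ∫ x in (-1:ℝ)..1, c * p (φ x) ≤ ∫ x in (-1:ℝ)..1, -(p (φ x) * φ1 x) := by
        refine intervalIntegral.integral_mono_on (by norm_num) (hint.const_mul c) hint1.neg
          fun x hx => ?_
        have e1 : φ1 x = -|φ1 x| := hs hx
        have e2 := h.lo x hx
        have e3 := h0 (φ x)
        nlinarith
      refine k1.trans ?_
      rw [intervalIntegral.integral_neg, esub, ← intervalIntegral.integral_symm]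
      by_cases hle : φ 1 ≤ φ (-1)
      · exact chv_per hp h0 h1 N _ _ hle (by linarith)
      · push Not at hle
        have k2 : 0 ≤ ∫ y in (φ (-1))..(φ 1), p y :=
          intervalIntegral.integral_nonneg hle.le fun y _ => h0 y
        rw [intervalIntegral.integral_symm]
        have k3 : 0 ≤ N * ∫ y in (0:ℝ)..1, p y := by positivity
        linarith
  rw [div_mul_eq_mul_div, le_div_iff₀ hc]
  linarith

end Pool.QN
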