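import Pool.Agent.H12.QN.Stmts

set_option autoImplicit false

namespace Pool.QN

open Finset MeasureTheory

namespace PCaux

theorem norm_ee (t : ℝ) : ‖ee t‖ = 1 := by
  unfold ee
  exact Complex.norm_exp_ofReal_mul_I _

theorem ee_add (s t : ℝ) : ee (s + t) = ee s * ee t := by
  unfold ee
  rw [← Complex.exp_add]
  congr 1
  push_cast
  ring

theorem ee_int (m : ℤ) : ee m = 1 := by
  unfold ee
  have h := Complex.exp_int_mul_two_pi_mul_I m
  rw [← h]
  congr 1
  push_cast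
  ring

theorem continuous_ee : Continuous ee := by
  unfold ee
  fun_prop

theorem continuous_DD (L : ℕ) : Continuous (DD L) := by
  unfold DD
  exact continuous_finsetSum _ fun n _ => continuous_ee.comp (continuous_const.mul continuous_id)

theorem DD_int (L : ℕ) (t : ℝ) (m : ℤ) : DD L (t + m) = DD L t := by
  unfold DD
  refine sum_congr rfl fun n _ => ?_
  have h : ((n : ℝ) * (t + m)) = n * t + (((n : ℤ) * m : ℤ) : ℝ) := by
    push_cast
    ring
  rw [h, ee_add, ee_int, mul_one]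

theorem continuous_Fj (j : ℕ) : Continuous (Fj j) := by
  unfold Fj
  exact ((continuous_DD _).norm.pow 2).div_const _

theorem Fj_int (j : ℕ) (t : ℝ) (m : ℤ) : Fj j (t + m) = Fj j t := by
  unfold Fj
  rw [DD_int]

theorem Fj_nonneg (j : ℕ) (t : ℝ) : 0 ≤ Fj j t := by
  unfold Fj
  positivity

theorem continuous_WW (K : ℕ) : Continuous (WW K) := by
  unfold WW
  refine continuous_finsetSum _ fun h _ => continuous_finsetSum _ fun j _ => ?_
  exact (continuous_Fj j).comp (continuous_const.mul continuous_id)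

theorem WW_int (K : ℕ) (t : ℝ) (m : ℤ) : WW K (t + m) = WW K t := by
  unfold WW
  refine sum_congr rfl fun h _ => sum_congr rfl fun j _ => ?_
  have e : (2 * (h : ℝ) * (t + m)) = 2 * h * t + ((2 * (h : ℤ) * m : ℤ) : ℝ) := by
    push_cast
    ring
  rw [e, Fj_int]

theorem WW_nonneg (K : ℕ) (t : ℝ) : 0 ≤ WW K t := by
  unfold WW
  exact sum_nonneg fun h _ => sum_nonneg fun j _ => Fj_nonneg _ _

/-- Abel summation -/
theorem abel (K : ℕ) (w v : ℕ → ℂ) (M : ℝ) (hM : ∀ L ≤ K, ‖∑ k ∈ range L, v k‖ ≤ M) :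
    ‖∑ k ∈ range K, w k * v k‖ ≤ 2 * (‖w 0‖ + ∑ k ∈ range (K - 1), ‖w (k + 1) - w k‖) * M := by
  have hM0 : 0 ≤ M := by
    have := hM 0 (Nat.zero_le _)
    simpa using this
  have h := Finset.sum_range_by_parts w v K
  simp only [smul_eq_mul] at h
  rw [h]
  have h1 : ‖w (K - 1)‖ ≤ ‖w 0‖ + ∑ k ∈ range (K - 1), ‖w (k + 1) - w k‖ := by
    have e : w (K - 1) = w 0 + ∑ k ∈ range (K - 1), (w (k + 1) - w k) := by
      rw [Finset.sum_range_sub]
      ring
    rw [e]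
    exact (norm_add_le _ _).trans (add_le_add le_rfl (norm_sum_le _ _))
  have h2 : ‖w (K - 1) * ∑ i ∈ range K, v i‖ ≤
      (‖w 0‖ + ∑ k ∈ range (K - 1), ‖w (k + 1) - w k‖) * M := by
    rw [norm_mul]
    exact mul_le_mul h1 (hM K le_rfl) (norm_nonneg _) (by positivity)
  have h3 : ‖∑ i ∈ range (K - 1), (w (i + 1) - w i) * ∑ i ∈ range (i + 1), v i‖ ≤
      (∑ k ∈ range (K - 1), ‖w (k + 1) - w k‖) * M := by
    refine (norm_sum_le _ _).trans ?_
    rw [sum_mul]
    refine sum_le_sum fun i hi => ?_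
    rw [norm_mul]
    rw [mem_range] at hi
    exact mul_le_mul_of_nonneg_left (hM (i + 1) (by omega)) (norm_nonneg _)
  have h4 := norm_sub_le (w (K - 1) * ∑ i ∈ range K, v i)
    (∑ i ∈ range (K - 1), (w (i + 1) - w i) * ∑ i ∈ range (i + 1), v i)
  have h5 : 0 ≤ ‖w 0‖ * M := by positivity
  nlinarith

end PCaux

open PCaux in
/-- row PC: coefficients of bounded variation times a quadratic phase -/
theorem pc_thm (h1 : WEYStmt) (h2 : CHVStmt) (h3 : AVGStmt) : PCStmt := by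
  intro c B ε hε
  obtain ⟨C1, hC1, hchv⟩ := h2 c B
  obtain ⟨C2, hC2, havg⟩ := h3 ε hε
  refine ⟨16384 * (C1 * C2), by positivity, fun φ φ1 φ2 hcur d r hd K hK w al be => ?_⟩
  set V := ‖w 0‖ + ∑ k ∈ range (K - 1), ‖w (k + 1) - w k‖ with hV
  have hV0 : 0 ≤ V := by positivity
  -- pointwise bound
  have hpt : ∀ x, ‖FA d r K (fun k => w k * ee (al * k + be * (k:ℝ) ^ 2)) φ x‖ ^ 4 ≤
      16384 * V ^ 4 * (WW K ((d:ℝ) ^ 2 * φ x + be)) ^ 2 := by
    intro x
    set z := al + d * x + 2 * r * d * φ x with hz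
    set t := (d:ℝ) ^ 2 * φ x + be with ht
    have e1 : FA d r K (fun k => w k * ee (al * k + be * (k:ℝ) ^ 2)) φ x =
        ee (r * x + (r:ℝ) ^ 2 * φ x) * ∑ k ∈ range K, w k * ee (k * z + (k:ℝ) ^ 2 * t) := by
      unfold FA uu
      rw [mul_sum]
      refine sum_congr rfl fun k _ => ?_
      have e : ee (al * k + be * (k:ℝ) ^ 2) * ee (((r:ℝ) + d * k) * x + ((r:ℝ) + d * k) ^ 2 * φ x) =
          ee (r * x + (r:ℝ) ^ 2 * φ x) * ee (k * z + (k:ℝ) ^ 2 * t) := by
        rw [← ee_add, ← ee_add]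
        congr 1
        rw [hz, ht]
        ring
      rw [mul_assoc, e]
      ring
    have hW0 := WW_nonneg K t
    have hM : ∀ L ≤ K, ‖∑ k ∈ range L, ee (k * z + (k:ℝ) ^ 2 * t)‖ ≤ Real.sqrt (32 * WW K t) := by
      intro L hL
      exact Real.le_sqrt_of_sq_le (h1 K L z t hL)
    have h4 := abel K w (fun k => ee (k * z + (k:ℝ) ^ 2 * t)) _ hM
    rw [e1, norm_mul, norm_ee, one_mul]
    have h5 := pow_le_pow_left₀ (norm_nonneg _) h4 4
    refine h5.trans (le_of_eq ?_)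
    have e2 : (Real.sqrt (32 * WW K t)) ^ 4 = (32 * WW K t) ^ 2 := by
      have := Real.sq_sqrt (show 0 ≤ 32 * WW K t by positivity)
      calc (Real.sqrt (32 * WW K t)) ^ 4 = ((Real.sqrt (32 * WW K t)) ^ 2) ^ 2 := by ring
        _ = _ := by rw [this]
    rw [mul_pow, e2]
    ring
  -- the function p
  have hcp : Continuous fun y : ℝ => (WW K ((d:ℝ) ^ 2 * y + be)) ^ 2 :=
    ((continuous_WW K).comp ((continuous_const.mul continuous_id).add continuous_const)).pow 2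
  have hper : ∀ y : ℝ, (fun y : ℝ => (WW K ((d:ℝ) ^ 2 * y + be)) ^ 2) (y + 1) =
      (fun y : ℝ => (WW K ((d:ℝ) ^ 2 * y + be)) ^ 2) y := by
    intro y
    have e : (d:ℝ) ^ 2 * (y + 1) + be = ((d:ℝ) ^ 2 * y + be) + ((d ^ 2 : ℤ) : ℝ) := by
      push_cast
      ring
    simp only
    rw [e, WW_int]
  have hc1 : ContinuousOn φ (Set.Icc (-1) 1) := fun x hx => (hcur.d1 x hx).continuousWithinAt
  have hI : Integrable (fun x => 16384 * V ^ 4 * (WW K ((d:ℝ) ^ 2 * φ x + be)) ^ 2) mu := by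
    have h6 : ContinuousOn (fun x => 16384 * V ^ 4 * (WW K ((d:ℝ) ^ 2 * φ x + be)) ^ 2)
        (Set.Icc (-1) 1) := continuousOn_const.mul (hcp.comp_continuousOn hc1)
    exact h6.integrableOn_Icc
  have h7 := hchv φ φ1 φ2 hcur _ hcp (fun y => sq_nonneg _) hper
  have h8 := havg K hK (d ^ 2) (pow_ne_zero 2 hd) be
  push_cast at h8
  calc ∫ x, ‖FA d r K (fun k => w k * ee (al * k + be * (k:ℝ) ^ 2)) φ x‖ ^ 4 ∂mu
      ≤ ∫ x, 16384 * V ^ 4 * (WW K ((d:ℝ) ^ 2 * φ x + be)) ^ 2 ∂mu :=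
        integral_mono_of_nonneg (Filter.Eventually.of_forall fun x => by positivity) hI
          (Filter.Eventually.of_forall hpt)
    _ = 16384 * V ^ 4 * ∫ x, (WW K ((d:ℝ) ^ 2 * φ x + be)) ^ 2 ∂mu := by
        rw [integral_const_mul]
    _ ≤ 16384 * V ^ 4 * (C1 * (C2 * (K:ℝ) ^ (2 + ε))) := by
        refine mul_le_mul_of_nonneg_left (h7.trans ?_) (by positivity)
        exact mul_le_mul_of_nonneg_left h8 hC1.le
    _ = 16384 * (C1 * C2) * (K:ℝ) ^ (2 + ε) * V ^ 4 := by ring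

end Pool.QN
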