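import Pool.Agent.H79.QN.Stmts

set_option autoImplicit false

namespace Pool.Agent.H79.QN

open Finset

theorem nc1_log {b m : ℕ} (hb : 2 ≤ b) (hm : 1 ≤ m) : (Nat.log b m : ℝ) * Real.log b ≤ Real.log m := by
  have h1 : b ^ Nat.log b m ≤ m := Nat.pow_log_le_self b (by omega)
  have h2 : ((b : ℝ) ^ Nat.log b m) ≤ m := by exact_mod_cast h1
  have h3 : (0 : ℝ) < (b : ℝ) ^ Nat.log b m := by positivity
  have h4 := Real.log_le_log h3 h2
  rwa [Real.log_pow] at h4

/-- row NC1: the number of classes -/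
theorem nc1 : S_NC1 := by
  intro c₀ N K₀ Z hN hK hZ
  have hsub : Z.image (fun z => cls c₀ K₀ (wz z)) ⊆
      (Finset.univ : Finset (Bool × Bool)) ×ˢ
        ((Finset.range (Nat.log 2 (2 * N + 1) + 1) ×ˢ Finset.range (Nat.log 4 (4 * N ^ 2 + 1) + 1)) ×ˢ
          Finset.Ico (0 : ℤ) K₀) := by
    intro t ht
    rw [Finset.mem_image] at ht
    obtain ⟨z, hz, rfl⟩ := ht
    obtain ⟨h1, h2⟩ := hZ z hz
    rw [abs_le] at h1 h2
    have hK' : (0 : ℤ) < K₀ := by exact_mod_cast hK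
    simp only [cls, Finset.mem_product, Finset.mem_univ, Finset.mem_range, Finset.mem_Ico, true_and]
    refine ⟨⟨?_, ?_⟩, Int.emod_nonneg _ hK'.ne', Int.emod_lt_of_pos _ hK'⟩
    · refine Nat.lt_succ_of_le (Nat.log_mono_right ?_)
      simp only [wz]
      omega
    · refine Nat.lt_succ_of_le (Nat.log_mono_right ?_)
      have e1 : nsq (wz z) = 2 * z.1 ^ 2 + 2 * z.2 ^ 2 := by
        simp only [nsq, wz]
        ring
      have e2 : z.1 ^ 2 ≤ (N : ℤ) ^ 2 := by nlinarith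
      have e3 : z.2 ^ 2 ≤ (N : ℤ) ^ 2 := by nlinarith
      have e4 : nsq (wz z) ≤ ((4 * N ^ 2 : ℕ) : ℤ) := by
        rw [e1]
        push_cast
        linarith
      have e5 : 0 ≤ nsq (wz z) := by
        rw [e1]
        positivity
      omega
  have hc := Finset.card_le_card hsub
  rw [Finset.card_product, Finset.card_product, Finset.card_product, Finset.card_range,
    Finset.card_range, Int.card_Ico] at hc
  have hu : (Finset.univ : Finset (Bool × Bool)).card = 4 := by decide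
  rw [hu, sub_zero, Int.toNat_natCast] at hc
  have hc' : ((Z.image (fun z => cls c₀ K₀ (wz z))).card : ℝ) ≤
      4 * ((((Nat.log 2 (2 * N + 1) : ℕ) : ℝ) + 1) * (((Nat.log 4 (4 * N ^ 2 + 1) : ℕ) : ℝ) + 1) * K₀) := by
    exact_mod_cast hc
  refine hc'.trans ?_
  have hN' : (1 : ℝ) ≤ N := by exact_mod_cast hN
  have hL : 0 ≤ Real.log N := Real.log_nonneg hN'
  have l2 : (0.69 : ℝ) ≤ Real.log 2 := by
    have := Real.log_two_gt_d9
    linarith
  have l4 : (1.38 : ℝ) ≤ Real.log 4 := by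
    have h : Real.log 4 = 2 * Real.log 2 := by
      rw [show (4 : ℝ) = 2 ^ 2 by norm_num, Real.log_pow]
      norm_num
    rw [h]
    linarith
  have a1 : ((Nat.log 2 (2 * N + 1) : ℕ) : ℝ) + 1 ≤ 4 * (1 + Real.log N) := by
    have h := nc1_log (b := 2) (m := 2 * N + 1) (by norm_num) (by omega)
    have h3 : Real.log ((2 * N + 1 : ℕ) : ℝ) ≤ 2 + Real.log N := by
      have e1 : ((2 * N + 1 : ℕ) : ℝ) ≤ 3 * N := by
        push_cast
        linarith
      have e2 := Real.log_le_log (by positivity) e1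
      rw [Real.log_mul (by norm_num) (by positivity)] at e2
      have e3 := Real.log_le_sub_one_of_pos (show (0 : ℝ) < 3 by norm_num)
      linarith
    push_cast at h h3
    have h5 : (0 : ℝ) ≤ ((Nat.log 2 (2 * N + 1) : ℕ) : ℝ) := by positivity
    nlinarith
  have a2 : ((Nat.log 4 (4 * N ^ 2 + 1) : ℕ) : ℝ) + 1 ≤ 4 * (1 + Real.log N) := by
    have h := nc1_log (b := 4) (m := 4 * N ^ 2 + 1) (by norm_num) (by omega)
    have h3 : Real.log ((4 * N ^ 2 + 1 : ℕ) : ℝ) ≤ 4 + 2 * Real.log N := by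
      have e1 : ((4 * N ^ 2 + 1 : ℕ) : ℝ) ≤ 5 * (N : ℝ) ^ 2 := by
        push_cast
        nlinarith
      have e2 := Real.log_le_log (by positivity) e1
      rw [Real.log_mul (by norm_num) (by positivity), Real.log_pow] at e2
      have e3 := Real.log_le_sub_one_of_pos (show (0 : ℝ) < 5 by norm_num)
      push_cast at e2 ⊢
      linarith
    push_cast at h h3
    have h5 : (0 : ℝ) ≤ ((Nat.log 4 (4 * N ^ 2 + 1) : ℕ) : ℝ) := by positivity
    nlinarith
  have hK0 : (0 : ℝ) ≤ K₀ := by positivity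
  have p1 : (((Nat.log 2 (2 * N + 1) : ℕ) : ℝ) + 1) * (((Nat.log 4 (4 * N ^ 2 + 1) : ℕ) : ℝ) + 1) ≤
      (4 * (1 + Real.log N)) * (4 * (1 + Real.log N)) :=
    mul_le_mul a1 a2 (by positivity) (by positivity)
  have p2 := mul_le_mul_of_nonneg_right p1 hK0
  have p3 : 0 ≤ (1 + Real.log N) ^ 2 * K₀ := by positivity
  calc 4 * ((((Nat.log 2 (2 * N + 1) : ℕ) : ℝ) + 1) * (((Nat.log 4 (4 * N ^ 2 + 1) : ℕ) : ℝ) + 1) * K₀)
      ≤ 4 * ((4 * (1 + Real.log N)) * (4 * (1 + Real.log N)) * K₀) := by linarith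
    _ = 64 * ((1 + Real.log N) ^ 2 * K₀) := by ring
    _ ≤ 100 * ((1 + Real.log N) ^ 2 * K₀) := by linarith
    _ = 100 * (1 + Real.log N) ^ 2 * K₀ := by ring

end Pool.Agent.H79.QN
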